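import Pool.Agent.X281.SE.Fam3

/-!
# The section conjecture for 100% of the members of a one-parameter family of superelliptic curves

Let `K` be a number field, `c ∈ K[t]` and `f ∈ K[t][x]`, `d = deg_x f ≥ 3`, and let `θ ∈ K̄` be a simple
zero of `c` such that `f(θ, x)` is separable of degree `d` and some `σ ∈ Gal(K̄/K(θ))` fixes no root of
`f(θ, x)`; this is so if `f(θ, x)` is irreducible over `K(θ)`.  We prove that for all `t ∈ O_K` outside
a set of density zero the following holds for all `n ≥ 1` and `m ∈ ℤ` such that some prime number `ℓ`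
divides `n` and `d` and not `m`: the curve

  `c(t)^m yⁿ = f(t, x)`

has no point over `K`, and its fundamental group has no section, also when any set of closed points of
the curve is removed.  (For `n` coprime to `d` there is a rational point at infinity.)  Moreover, for
the same `t` and all prime numbers `ℓ ∣ d`, `ℓ ∤ m`, the geometrically pro-`ℓ` fundamental group
`Gal(M/F)` of the curve `c(t)^m y^ℓ = f(t, x)` has no section; here `F` is the function field and `M`
the maximal pro-`ℓ` extension of `K̄ F` that is unramified over the curve.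

So all these curves, and all smooth curves over `K` that dominate one of them, satisfy the section
conjecture.  For `m = -1` and `n = 2` these are general one-parameter families `y² = F(t, x)` of
hyperelliptic curves, `F = c f`; the only condition is that the family degenerates at `t = θ` in the
simplest way, and that `f(θ, x)` has an element without fixed points in its Galois group.  Nothing is
assumed about the other members, and none of them needs to be related to the others by twisting.  The
set of the exceptional `t` has density zero in a strong sense: for every `ε > 0` there is an ideal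
`I ≠ 0` such that the exceptional `t` lie in at most `ε #(O_K/I)` residue classes modulo `I`.

In `MP_2f3286_ag.QuadraticTwists` and `MP_e66f84_ag.SuperellipticTwists` the families consist of the
twists of one curve: `c = t` and `f ∈ K[x]`.

The fundamental group is described through valuations.  Let `U` be a smooth geometrically connected
curve over `k` with function field `F`, let `Ω` be an algebraic closure of `F`, and let `F_U` be the
maximal extension of `F` inside `Ω` which is unramified over the closed points of `U`, that is, over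
their local rings, which are valuation rings of `F`.  Then `π₁(U) = Gal(F_U/F)`, and the map
`π₁(U) → G_k` is the restriction of automorphisms to the algebraic closure of `k` in `Ω`.

Proof.  By Chebotarev there are many primes `v` of `K` of degree one, modulo which `c` has a simple
root `τ`, such that `f(τ, x)` is separable of degree `d` modulo `v` and the Frobenius element at `v`
permutes its roots like `σ` permutes the roots of `f(θ, x)`; in particular it has no root modulo `v`.
Of the `t` with `t ≡ τ` modulo `v` all but one class modulo `v²` satisfy `v(c(t)) = 1`.  So a proportion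
of `1/N v - 1/(N v)²` of all `t` satisfies this condition for the prime `v`, and almost all `t` satisfy
it for some `v`.  For such `t` the curve `c(t)^m y^ℓ = f(t, x)` has no section, by the local theorem of
`MP_e66f84_ag.SuperellipticTwists` (Kummer theory of the functions `(x - ρ)/(x - ρ')`, `ρ`, `ρ'` roots of
`f(t, x)`, and a weight argument for the inertia group at `v`).
-/

open Polynomial NumberField

namespace Pool.Agent.Results.MP_2f3286_ag.OneParameterFamilies

section definitions

variable (ℓ : ℕ) (k F Ω : Type) [Field k] [Field F] [Field Ω] [Algebra k F] [Algebra F Ω]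
  [Algebra k Ω]

/-- The inertia group of the valuation ring `W` of `Ω`, as a subgroup of `Gal(Ω/F)`: the
automorphisms of `Ω` over `F` that map `W` onto itself and act as the identity on its residue
field. -/
noncomputable def inertia (W : ValuationSubring Ω) : Subgroup (Ω ≃ₐ[F] Ω) :=
  (W.inertiaSubgroup F).map (W.decompositionSubgroup F).subtype

/-- `F_U`, for a set `U` of valuation rings of `F`: the elements of `Ω` fixed by the inertia groups
of all valuation rings `W` of `Ω` with `W ∩ F ∈ U`.  If `Ω` is an algebraic closure of a field `F`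
of characteristic zero, this is the maximal extension of `F` in `Ω` unramified over `U`. -/
noncomputable def unramified (U : Set (ValuationSubring F)) : IntermediateField F Ω :=
  ⨅ W : {W : ValuationSubring Ω // W.comap (algebraMap F Ω) ∈ U},
    IntermediateField.fixedField (inertia F Ω W.1)

/-- `k̄ F`, the compositum of `F` and of the algebraic closure of `k` in `Ω`. -/
noncomputable def geomField : IntermediateField F Ω :=
  IntermediateField.adjoin F (algebraicClosure k Ω : Set Ω)

/-- The algebraic extension `L` of `K` in `Ω` is unramified at all valuation rings of `Ω` that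
contain `k`: every nonzero element of `L` has the same valuation as an element of `K`.  (If `K` is
a function field of one variable over the algebraic closure of `k` and `k` has characteristic zero,
then this says that `L/K` is unramified over all points of the smooth projective curve.) -/
def Unramified {k K Ω : Type} [Field k] [Field K] [Field Ω] [Algebra k Ω] [Algebra K Ω]
    (L : IntermediateField K Ω) : Prop :=
  ∀ W : ValuationSubring Ω, (∀ c : k, algebraMap k Ω c ∈ W) → ∀ z ∈ L, z ≠ 0 →
    ∃ t : K, t ≠ 0 ∧ z / algebraMap K Ω t ∈ W ∧ (z / algebraMap K Ω t)⁻¹ ∈ W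

/-- `L/K` is a finite Galois extension whose degree is a power of `ℓ`. -/
def FiniteProEll (ℓ : ℕ) {K Ω : Type} [Field K] [Field Ω] [Algebra K Ω]
    (L : IntermediateField K Ω) : Prop :=
  FiniteDimensional K L ∧ IsGalois K L ∧ ∃ m : ℕ, Module.finrank K L = ℓ ^ m

/-- The maximal unramified pro-`ℓ` extension of `K` in `Ω`: the compositum of the finite Galois
extensions of `K` whose degree is a power of `ℓ` and which are unramified. -/
noncomputable def maxProEll (ℓ : ℕ) (k K Ω : Type) [Field k] [Field K] [Field Ω] [Algebra k Ω]
    [Algebra K Ω] : IntermediateField K Ω :=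
  ⨆ L : {L : IntermediateField K Ω // FiniteProEll ℓ L ∧ Unramified (k := k) L}, L.1

/-- `M`, the maximal unramified pro-`ℓ` extension of `k̄ F` in `Ω`, as an extension of `F`. -/
noncomputable def proEllField : IntermediateField F Ω :=
  (maxProEll ℓ k (geomField k F Ω) Ω).restrictScalars F

/-- The map `τ : M → M` acts as `σ : K → K` on the elements that the fields `K` and `M` have in
common when they are regarded as subfields of `Ω` through `i` and `j`. -/
def ActsAs {K M Ω : Type} [Field K] [Field M] [Field Ω] (i : K →+* Ω) (j : M →+* Ω) (σ : K → K)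
    (τ : M → M) : Prop :=
  ∀ c z, j z = i c → j (τ z) = i (σ c)

/-- Let `k ⊆ K ⊆ Ω` and `F ⊆ N ⊆ Ω` be fields.  A splitting of `Gal(N/F) → Gal(K/k)`: a continuous
homomorphism `s` from `Gal(K/k)` to `Gal(N/F)` such that `s(σ)` acts as `σ` on the elements of
`K ∩ N`. -/
structure Splitting (K N : Type) [Field K] [Field N] [Algebra k K] [Algebra F N] [Algebra K Ω]
    [Algebra N Ω] where
  /-- the homomorphism `Gal(K/k) → Gal(N/F)` -/
  toHom : (K ≃ₐ[k] K) →* (N ≃ₐ[F] N)
  cont : Continuous toHom
  compat : ∀ σ : K ≃ₐ[k] K, ActsAs (algebraMap K Ω) (algebraMap N Ω) σ (toHom σ)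

/-- There are no sections of `Gal(N/F) → G_k`, where `G_k = Gal(k̄/k)` and `k̄` is the algebraic
closure of `k` in `Ω`.  For `N = F_U` these are the sections of `π₁(U) → G_k`. -/
def NoSplitting (N : IntermediateField F Ω) : Prop :=
  IsEmpty (Splitting k F Ω (algebraicClosure k Ω) N)

end definitions

section curves

variable {k : Type} [Field k]

/-- The smooth projective curve with the affine equation `a yⁿ = f(x)` has no point over `k`:
neither in the affine part nor at infinity. -/
def NoPoint (n : ℕ) (a : k) (f : k[X]) : Prop :=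
  (¬ ∃ x y : k, a * y ^ n = f.eval x) ∧
    ¬ ∃ r : k, a * r ^ Nat.gcd n f.natDegree = f.leadingCoeff

/-- Let `F` be any field over `k` that contains a point `(x, y)` of the curve `a yⁿ = f(x)`, for
instance the function field of the curve, and let `Ω` be an algebraic closure of `F`.  Then for
every set `U` of valuation rings of `F` over `k` there is no section of `π₁(U) → G_k`.  If `F` is the
function field of the curve, such `U` are given by the smooth projective curve and by all its open
subcurves. -/
def NoSection (n : ℕ) (a : k) (f : k[X]) : Prop :=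
  ∀ (F Ω : Type) [Field F] [Field Ω] [Algebra k F] [Algebra F Ω] [Algebra k Ω]
    [IsScalarTower k F Ω] [IsAlgClosure F Ω] (x y : F) (U : Set (ValuationSubring F)),
    algebraMap k F a * y ^ n = aeval x f → (∀ O ∈ U, ∀ c : k, algebraMap k F c ∈ O) →
      NoSplitting k F Ω (unramified F Ω U)

/-- Let `F = k(x, y)` be the function field of the curve `a y^ℓ = f(x)`, let `Ω` be an algebraic
closure of `F`, and let `M` be the maximal unramified pro-`ℓ` extension of `k̄ F`.  For all
extensions `N ⊇ M` of `F` in `Ω`, in particular for `N = M`, there is no section of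
`Gal(N/F) → G_k`. -/
def NoProEllSection (ℓ : ℕ) (a : k) (f : k[X]) : Prop :=
  ∀ (F Ω : Type) [Field F] [Field Ω] [Algebra k F] [Algebra F Ω] [Algebra k Ω]
    [IsScalarTower k F Ω] [IsAlgClosure F Ω] (x y : F), Transcendental k x →
    algebraMap k F a * y ^ ℓ = aeval x f →
    IntermediateField.adjoin k {x, y} = (⊤ : IntermediateField k F) →
    ∀ N : IntermediateField F Ω, proEllField ℓ k F Ω ≤ N → NoSplitting k F Ω N

end curves

section families

/-- The polynomial `f(t, x)` in `x`, for `f ∈ K[t][x]` and an element `t` of a field `B` over `K`. -/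
noncomputable def member {K : Type} [Field K] (f : K[X][X]) {B : Type} [Field B] [Algebra K B]
    (t : B) : B[X] :=
  f.map (eval₂RingHom (algebraMap K B) t)

/-- Some element of the Galois group of `K` fixes `θ` and no root of `f(θ, x)`. -/
def HasDerangement {K : Type} [Field K] (f : K[X][X]) (θ : AlgebraicClosure K) : Prop :=
  ∃ σ : AlgebraicClosure K ≃ₐ[K] AlgebraicClosure K, σ θ = θ ∧
    ∀ ρ, (member f θ).eval ρ = 0 → σ ρ ≠ ρ

/-- The integers `t` of `K` which do not have the following property: for all `n ≥ 1` and all integers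
`m` such that some prime number divides `n` and the degree `d` of `f` in `x` and not `m`, the curve
`c(t)^m yⁿ = f(t, x)` has neither points nor sections, and for all prime numbers `ℓ` which divide `d` and
not `m` the geometrically pro-`ℓ` fundamental group of the curve `c(t)^m y^ℓ = f(t, x)` has no
section. -/
def Exceptional {K : Type} [Field K] (c : K[X]) (f : K[X][X]) : Set (𝓞 K) :=
  {t | ¬ ∀ (m : ℤ) (ℓ : ℕ), ℓ.Prime → ℓ ∣ f.natDegree → ¬ (ℓ : ℤ) ∣ m →
    (∀ n : ℕ, 0 < n → ℓ ∣ n →
      NoPoint n (c.eval (algebraMap (𝓞 K) K t) ^ m) (member f (algebraMap (𝓞 K) K t)) ∧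
      NoSection n (c.eval (algebraMap (𝓞 K) K t) ^ m) (member f (algebraMap (𝓞 K) K t))) ∧
    NoProEllSection ℓ (c.eval (algebraMap (𝓞 K) K t) ^ m) (member f (algebraMap (𝓞 K) K t))}

/-- Density zero: for every `ε > 0` there is an ideal `I ≠ 0` such that `E` lies in at most
`ε #(O_K/I)` residue classes modulo `I`. -/
def DensityZero {K : Type} [Field K] (E : Set (𝓞 K)) : Prop :=
  ∀ ε : ℝ, 0 < ε → ∃ I : Ideal (𝓞 K), I ≠ ⊥ ∧
    (Set.ncard ((Ideal.Quotient.mk I) '' E) : ℝ) ≤ ε * Nat.card (𝓞 K ⧸ I)

end families

section proof

lemma iSup_congr_prop {α : Type} [CompleteLattice α] {P Q : α → Prop} (h : ∀ L, P L ↔ Q L) :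
    (⨆ L : {L // P L}, L.1) = ⨆ L : {L // Q L}, L.1 := by
  have h1 : P = Q := funext fun L => propext (h L)
  subst h1
  rfl

lemma proEll_eq (ℓ : ℕ) (k F Ω : Type) [Field k] [Field F] [Field Ω] [Algebra k F] [Algebra F Ω]
    [Algebra k Ω] : proEllField ℓ k F Ω = Pool.Agent.Y157.PS.geomPro ℓ k F Ω := by
  unfold proEllField Pool.Agent.Y157.PS.geomPro maxProEll Pool.Agent.Y157.PS.maxPro
  congr 1
  refine iSup_congr_prop fun L => ?_
  constructor
  · rintro ⟨⟨h1, h2, h3⟩, h4⟩
    refine ⟨⟨h1, h2, h3⟩, fun W hW z hz hz0 => ?_⟩
    obtain ⟨t, ht, h5, h6⟩ := h4 W hW z hz hz0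
    exact ⟨t, ht, div_ne_zero hz0 ((_root_.map_ne_zero _).2 ht), h5, h6⟩
  · rintro ⟨⟨h1, h2, h3⟩, h4⟩
    refine ⟨⟨h1, h2, h3⟩, fun W hW z hz hz0 => ?_⟩
    obtain ⟨t, ht, -, h5, h6⟩ := h4 W hW z hz hz0
    exact ⟨t, ht, h5, h6⟩

lemma of_fine {k : Type} [Field k] (l : ℕ) (a : k) (f : k[X])
    (h : Pool.Agent.Y157.PS.FineP l a f) (n : ℕ) (hn : l ∣ n) (hd : l ∣ f.natDegree) :
    NoPoint n a f ∧ NoSection n a f := by
  obtain ⟨-, h1, h2, h3⟩ := h
  obtain ⟨n', rfl⟩ := hn
  refine ⟨⟨?_, ?_⟩, ?_⟩
  · rintro ⟨x, y, hxy⟩
    apply h2 x (y ^ n')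
    rw [← hxy, ← pow_mul, mul_comm n' l]
  · rintro ⟨r, hr⟩
    obtain ⟨e, he⟩ := Nat.dvd_gcd (Dvd.intro n' rfl : l ∣ l * n') hd
    apply h3 (r ^ e)
    rw [← hr, ← pow_mul, mul_comm e l, he]
  · intro F Ω _ _ _ _ _ _ _ x y U hxy hU
    have hcl : IsAlgClosed Ω := IsAlgClosure.isAlgClosed F
    have halg : Algebra.IsAlgebraic F Ω := IsAlgClosure.isAlgebraic
    have h4 := h1 F Ω U hU x (y ^ n') (by rw [← hxy, ← pow_mul, mul_comm n' l])
    exact ⟨fun s => h4.false ⟨s.toHom, s.cont, s.compat⟩⟩

end proof

/-- Let `K` be a number field, `c ∈ K[t]`, `f ∈ K[t][x]` of degree `d ≥ 3` in `x`, and let `θ ∈ K̄` be a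
simple zero of `c` such that `f(θ, x)` is separable of degree `d`.  Assume that `f(θ, x)` is
irreducible over `K(θ)` or, more generally, that some element of the Galois group of `K(θ)` fixes no
root of `f(θ, x)`.  Then for all `t ∈ O_K` outside a set of density zero, for all `n ≥ 1` and all
integers `m` such that some prime number divides `n` and `d` and not `m`, the smooth projective curve
with the affine equation `c(t)^m yⁿ = f(t, x)` has no point over `K`, and the fundamental groups of its
open subcurves and of all smooth curves over `K` that dominate it have no sections; and for all prime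
numbers `ℓ` that divide `d` and not `m` the geometrically pro-`ℓ` fundamental group of the curve
`c(t)^m y^ℓ = f(t, x)` has no section. -/
theorem result (K : Type) [Field K] [NumberField K] (c : K[X]) (f : K[X][X])
    (θ : AlgebraicClosure K) (hc : aeval θ c = 0) (hc' : aeval θ (derivative c) ≠ 0)
    (hdeg : (member f θ).natDegree = f.natDegree) (hsep : (member f θ).Separable)
    (h3 : 3 ≤ f.natDegree)
    (h : Irreducible (member f (IntermediateField.AdjoinSimple.gen K θ)) ∨ HasDerangement f θ) :
    DensityZero (Exceptional c f) := by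
  have hadm : Pool.Agent.X281.SE.Adm 2 f θ := by
    rcases h with h | h
    · exact Pool.Agent.X281.SE.adm_of_irreducible f θ h (by
        have h5 : (Pool.Agent.X281.SE.fibre f θ).natDegree = f.natDegree := hdeg
        omega)
    · obtain ⟨σ, h1, h2⟩ := h
      exact ⟨σ, h1, h2, fun h5 => absurd rfl h5⟩
  intro ε hε
  obtain ⟨I, hI, hIE⟩ := Pool.Agent.X281.SE.densityP c f θ hc hc' hdeg hsep h3 hadm ε hε
  refine ⟨I, hI, le_trans ?_ hIE⟩
  have hfin : Finite (𝓞 K ⧸ I) := Ideal.finiteQuotientOfFreeOfNeBot _ hI
  have hsub : (Exceptional c f : Set (𝓞 K)) ⊆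
      {t : 𝓞 K | ¬ ((Pool.Agent.X281.SE.fibre f (algebraMap (𝓞 K) K t)).natDegree = f.natDegree ∧
        ∀ ℓ : ℕ, ℓ.Prime → ℓ ∣ f.natDegree → ∀ m : ℤ, ¬ (ℓ : ℤ) ∣ m →
          Pool.Agent.Y157.PS.FineP ℓ (c.eval (algebraMap (𝓞 K) K t) ^ m)
          (Pool.Agent.X281.SE.fibre f (algebraMap (𝓞 K) K t)))} := by
    intro t ht hfine
    apply ht
    intro m ℓ hℓ hℓd hm
    have h4 := hfine.2 ℓ hℓ hℓd m hm
    have h5 : (member f (algebraMap (𝓞 K) K t)).natDegree = f.natDegree := hfine.1
    refine ⟨fun n hn hln => of_fine ℓ _ _ h4 n hln (by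
      have h6 : (Pool.Agent.X281.SE.fibre f (algebraMap (𝓞 K) K t)).natDegree = f.natDegree := h5
      rw [h6]
      exact hℓd), ?_⟩
    intro F Ω _ _ _ _ _ _ _ x y hx hxy hF N hN
    have hcl : IsAlgClosed Ω := IsAlgClosure.isAlgClosed F
    have halg : Algebra.IsAlgebraic F Ω := IsAlgClosure.isAlgebraic
    rw [proEll_eq] at hN
    exact ⟨fun s => h4.1 F Ω x y hx hxy hF N hN s.toHom s.cont s.compat⟩
  exact_mod_cast Set.ncard_le_ncard (Set.image_mono hsub) (Set.toFinite _)

end Pool.Agent.Results.MP_2f3286_ag.OneParameterFamilies
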