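import Pool.Agent.X281.OB.Rel6

/-!
# For 100% of the families of polynomials no cyclic covering of any prime degree `ℓ`, whose number of
branch points is not divisible by `ℓ`, has geometrically pro-`ℓ` sections

Let `k` be any field finitely generated over `ℚ`, that is, the fraction field of a domain `R` of
characteristic zero that is finitely generated as a ring.  Let `d_i ≥ 2` be given for `i` in a finite
set with at least two elements.  We consider the curves

  `X : a^m y^ℓ = ∏ f_i(x)^(e_i)`,   `f_i = c_{i,0} + c_{i,1} x + … + c_{i,d_i} x^(d_i)`,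

where ALL coefficients `a`, `c_{i,j}` vary in `R`, `ℓ` is a prime number that does NOT divide `∑ d_i`, the
number of branch points, and the exponents `e_i` are prime to `ℓ` with `ℓ ∣ ∑ e_i d_i`, so that the points
at infinity are not branch points.  We prove that for all vectors of coefficients outside a set of
density zero the `f_i` are irreducible of degree `d_i`, the product `∏ f_i` is separable, and the
following holds for ALL such prime numbers `ℓ` (infinitely many, for the same `a` and `f_i`) and exponents
`e_i`, all finite extensions `L` of `k` and all integers `m` such that `ℓ` does not divide `m [L : k]` and for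
every `i` either `ℓ ∣ d_i` or `[L : k] < d_i`.

* Let `F` be the function field of `X : a^m y^ℓ = ∏ f_i(x)^(e_i)` over `L` and let `M` be the maximal pro-`ℓ`
  extension of `L̄ F` that is unramified over the smooth projective curve.  The quotient `Gal(M/F)`
  of `Gal(Ω/F)`, the geometrically pro-`ℓ` fundamental group, has no section over `G_L`.
* For all `n` divisible by `ℓ` the curve `a^m yⁿ = ∏ f_i(x)^(e_i)` has no point over `L`, and there are no
  birational sections: for the function field `F` of the curve, and for every field `F` over `L` that
  contains `x` and `y` with this equation, as the function fields of all curves and varieties that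
  dominate it, there is no section of `Gal(Ω/F) → G_L`, where `Ω` is an algebraic closure of `F`.  More
  generally there is no section of `Gal(F_U/F) → G_L` for the maximal extension `F_U` of `F` that is
  unramified over a set `U` of valuation rings over `L`; one has `F_U = Ω` for `U = ∅`.

All these curves have genus at least two and index one: as `ℓ` does not divide `∑ d_i`, it does not
divide one of the `d_i`, and the curve has divisors of the degrees `d_i` (branch points) and `ℓ` (fibres
over rational points).  So neither Stix's period-index obstruction nor the elementary obstruction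
excludes sections.  Examples are the curves `a y³ = f₁(x) f₂(x)²` of genus `2` with quadratic `f₁`, `f₂`,
and for every prime number `ℓ ≥ 3` and `0 < e < ℓ` the curves `a y^ℓ = f₁(x)^e f₂(x)^(ℓ - e)` of genus
`ℓ - 1` with the same quadratic polynomials `f₁`, `f₂` and the same `a`.

`MP_8312c9_nt.ProEllAnyExponents` is about the finitely many prime numbers `ℓ` that divide `∑ d_i`.  The
two theorems together treat all curves of the form `a^m y^ℓ = ∏ f_i(x)^(e_i)` whose branch points have
degrees at least two over `k`.  The set of the exceptional vectors has density zero in a strong sense: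
for every `ε > 0` there is an ideal `J` of `R` of finite index such that they lie in at most
`ε #(R/J)^N` residue classes modulo `J`, `N` being the number of coefficients.

The fundamental group is described through valuations.  Let `U` be a smooth geometrically connected
curve over `k` with function field `F`, let `Ω` be an algebraic closure of `F`, and let `F_U` be the
maximal extension of `F` inside `Ω` which is unramified over the closed points of `U`, that is, over
their local rings, which are valuation rings of `F`.  Then `π₁(U) = Gal(F_U/F)`, and the map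
`π₁(U) → G_k` is the restriction of automorphisms to the algebraic closure of `k` in `Ω`.

Proof.  Almost all vectors over `R` have two discrete valuation rings `A` of `k` with finite residue
fields of different characteristics, at which `a` is a uniformiser or the inverse of one, and the `f_i`
are integral with reductions that are irreducible of degree `d_i` and coprime.  For every `ℓ` one of
them has a residue characteristic different from `ℓ`.  As `ℓ` does not divide `[L : k]`, there is a
discrete valuation ring of `L` above it whose ramification index and residue degree are not divisible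
by `ℓ`.  So the valuation of `a^m` is not divisible by `ℓ`, and the reduction of `f_i` has no root in the
residue field of `L`.  There is no canonical covering field `Y^ℓ = ∏ (x - b)` here, as `ℓ` does not divide
the number `n` of the branch points `b`.  Let `E` be the extension of `L` generated by the `b`.  A section
acts on the elements `((x - b)/(x - b'))^(1/ℓ)` of `M` through the Kummer cocycles of elements of `E`.  For
three branch points `b`, `b'`, `b''` the field `M` contains the maximal unramified pro-`ℓ` extension of the
function field of the Fermat curve in `((x - b)/(x - b''))^(1/ℓ)` and `((x - b')/(x - b''))^(1/ℓ)`; as inertia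
elements cannot act on it with three different characters, the cocycle of `((x - b)/(x - b'))^(1/ℓ)` is
unramified for two of them.  A twist `T` of this element by a root of a unit is fixed by the section,
over `E(T)` the curve becomes a covering with `(n - 2) ℓ` branch points, a number that is divisible by
`ℓ`, with good reduction, and the theorem about sections of such coverings gives a unique place
fixed by the section, which lies above a branch point.  By uniqueness it is fixed by the whole
decomposition group of `L`, which therefore fixes a branch point.  Then the reduction of some `f_i` has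
a root in the residue field, a contradiction.
-/

open Polynomial

namespace Pool.Agent.Results.MP_2f3286_ag.ProEllSectionsAllPrimes

section definitions

variable (ℓ : ℕ) (k F Ω : Type) [Field k] [Field F] [Field Ω] [Algebra k F] [Algebra F Ω]
  [Algebra k Ω]

/-- The inertia group of the valuation ring `W` of `Ω`, as a subgroup of `Gal(Ω/F)`: the
automorphisms of `Ω` over `F` that map `W` onto itself and act as the identity on its residue
field. -/
noncomputable def inertia (W : ValuationSubring Ω) : Subgroup (Ω ≃ₐ[F] Ω) :=
  (W.inertiaSubgroup F).map (W.decompositionSubgroup F).subtype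

/-- `F_U`, for a set `U` of valuation rings of `F`: the elements of `Ω` fixed by the inertia groups
of all valuation rings `W` of `Ω` with `W ∩ F ∈ U`.  If `Ω` is an algebraic closure of a field `F`
of characteristic zero, this is the maximal extension of `F` in `Ω` unramified over `U`. -/
noncomputable def unramified (U : Set (ValuationSubring F)) : IntermediateField F Ω :=
  ⨅ W : {W : ValuationSubring Ω // W.comap (algebraMap F Ω) ∈ U},
    IntermediateField.fixedField (inertia F Ω W.1)

/-- `k̄ F`, the compositum of `F` and of the algebraic closure of `k` in `Ω`. -/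
noncomputable def geomField : IntermediateField F Ω :=
  IntermediateField.adjoin F (algebraicClosure k Ω : Set Ω)

/-- The algebraic extension `L` of `K` in `Ω` is unramified at all valuation rings of `Ω` that
contain `k`: every nonzero element of `L` has the same valuation as an element of `K`.  (If `K` is
a function field of one variable over the algebraic closure of `k` and `k` has characteristic zero,
then this says that `L/K` is unramified over all points of the smooth projective curve.) -/
def Unramified {k K Ω : Type} [Field k] [Field K] [Field Ω] [Algebra k Ω] [Algebra K Ω]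
    (L : IntermediateField K Ω) : Prop :=
  ∀ W : ValuationSubring Ω, (∀ c : k, algebraMap k Ω c ∈ W) → ∀ z ∈ L, z ≠ 0 →
    ∃ t : K, t ≠ 0 ∧ z / algebraMap K Ω t ∈ W ∧ (z / algebraMap K Ω t)⁻¹ ∈ W

/-- `L/K` is a finite Galois extension whose degree is a power of `ℓ`. -/
def FiniteProEll (ℓ : ℕ) {K Ω : Type} [Field K] [Field Ω] [Algebra K Ω]
    (L : IntermediateField K Ω) : Prop :=
  FiniteDimensional K L ∧ IsGalois K L ∧ ∃ m : ℕ, Module.finrank K L = ℓ ^ m

/-- The maximal unramified pro-`ℓ` extension of `K` in `Ω`: the compositum of the finite Galois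
extensions of `K` whose degree is a power of `ℓ` and which are unramified. -/
noncomputable def maxProEll (ℓ : ℕ) (k K Ω : Type) [Field k] [Field K] [Field Ω] [Algebra k Ω]
    [Algebra K Ω] : IntermediateField K Ω :=
  ⨆ L : {L : IntermediateField K Ω // FiniteProEll ℓ L ∧ Unramified (k := k) L}, L.1

/-- `M`, the maximal unramified pro-`ℓ` extension of `k̄ F` in `Ω`, as an extension of `F`. -/
noncomputable def proEllField : IntermediateField F Ω :=
  (maxProEll ℓ k (geomField k F Ω) Ω).restrictScalars F

/-- The map `τ : M → M` acts as `σ : K → K` on the elements that the fields `K` and `M` have in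
common when they are regarded as subfields of `Ω` through `i` and `j`. -/
def ActsAs {K M Ω : Type} [Field K] [Field M] [Field Ω] (i : K →+* Ω) (j : M →+* Ω) (σ : K → K)
    (τ : M → M) : Prop :=
  ∀ c z, j z = i c → j (τ z) = i (σ c)

/-- Let `k ⊆ K ⊆ Ω` and `F ⊆ N ⊆ Ω` be fields.  A splitting of `Gal(N/F) → Gal(K/k)`: a continuous
homomorphism `s` from `Gal(K/k)` to `Gal(N/F)` such that `s(σ)` acts as `σ` on the elements of
`K ∩ N`. -/
structure Splitting (K N : Type) [Field K] [Field N] [Algebra k K] [Algebra F N] [Algebra K Ω]
    [Algebra N Ω] where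
  /-- the homomorphism `Gal(K/k) → Gal(N/F)` -/
  toHom : (K ≃ₐ[k] K) →* (N ≃ₐ[F] N)
  cont : Continuous toHom
  compat : ∀ σ : K ≃ₐ[k] K, ActsAs (algebraMap K Ω) (algebraMap N Ω) σ (toHom σ)

/-- There are no sections of `Gal(N/F) → G_k`, where `G_k = Gal(k̄/k)` and `k̄` is the algebraic
closure of `k` in `Ω`.  For `N = F_U` these are the sections of `π₁(U) → G_k`. -/
def NoSplitting (N : IntermediateField F Ω) : Prop :=
  IsEmpty (Splitting k F Ω (algebraicClosure k Ω) N)

end definitions

section curves

variable {k : Type} [Field k]

/-- The smooth projective curve with the affine equation `a yⁿ = f(x)` has no point over `k`: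
neither in the affine part nor at infinity. -/
def NoPoint (n : ℕ) (a : k) (f : k[X]) : Prop :=
  (¬ ∃ x y : k, a * y ^ n = f.eval x) ∧
    ¬ ∃ r : k, a * r ^ Nat.gcd n f.natDegree = f.leadingCoeff

/-- Let `F` be any field over `k` that contains a point `(x, y)` of the curve `a yⁿ = f(x)`, for
instance the function field of the curve, and let `Ω` be an algebraic closure of `F`.  Then for
every set `U` of valuation rings of `F` over `k` there is no section of `π₁(U) → G_k`.  If `F` is the
function field of the curve, such `U` are given by the smooth projective curve and by all its open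
subcurves. -/
def NoSection (n : ℕ) (a : k) (f : k[X]) : Prop :=
  ∀ (F Ω : Type) [Field F] [Field Ω] [Algebra k F] [Algebra F Ω] [Algebra k Ω]
    [IsScalarTower k F Ω] [IsAlgClosure F Ω] (x y : F) (U : Set (ValuationSubring F)),
    algebraMap k F a * y ^ n = aeval x f → (∀ O ∈ U, ∀ c : k, algebraMap k F c ∈ O) →
      NoSplitting k F Ω (unramified F Ω U)

/-- Let `F = k(x, y)` be the function field of the curve `a y^ℓ = f(x)`, let `Ω` be an algebraic
closure of `F`, and let `M` be the maximal unramified pro-`ℓ` extension of `k̄ F`.  For all
extensions `N ⊇ M` of `F` in `Ω`, in particular for `N = M`, there is no section of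
`Gal(N/F) → G_k`. -/
def NoProEllSection (ℓ : ℕ) (a : k) (f : k[X]) : Prop :=
  ∀ (F Ω : Type) [Field F] [Field Ω] [Algebra k F] [Algebra F Ω] [Algebra k Ω]
    [IsScalarTower k F Ω] [IsAlgClosure F Ω] (x y : F), Transcendental k x →
    algebraMap k F a * y ^ ℓ = aeval x f →
    IntermediateField.adjoin k {x, y} = (⊤ : IntermediateField k F) →
    ∀ N : IntermediateField F Ω, proEllField ℓ k F Ω ≤ N → NoSplitting k F Ω N

end curves

section families

/-- The index set of the vectors of coefficients: `none` is the index of the coefficient `a`, and
`some ⟨i, j⟩` with `0 ≤ j ≤ d i` is the index of the coefficient of `x ^ j` in `f_i`. -/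
abbrev Index {I : Type} (d : I → ℕ) : Type := Option (Σ i, Fin (d i + 1))

/-- The coefficient `a` of the vector `c`. -/
def coeffA {R : Type} [CommRing R] (k : Type) [Field k] [Algebra R k] {I : Type} {d : I → ℕ}
    (c : Index d → R) : k :=
  algebraMap R k (c none)

/-- The polynomial `f_i` with the coefficients given by the vector `c`. -/
noncomputable def poly {R : Type} [CommRing R] (k : Type) [Field k] [Algebra R k] {I : Type}
    {d : I → ℕ} (c : Index d → R) (i : I) : k[X] :=
  ∑ j : Fin (d i + 1), C (algebraMap R k (c (some ⟨i, j⟩))) * X ^ (j : ℕ)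

/-- For all prime numbers `ℓ` that do not divide the sum of the degrees of the `f_i`, all exponents `e_i`
prime to `ℓ` such that `ℓ` divides the degree of `∏ f_i^(e_i)`, all finite extensions `L` of `k` and integers `m` such
that `ℓ` does not divide `m [L : k]` and for every `i` either `ℓ` divides the degree of `f_i` or `[L : k]` is
smaller than it: for all `n` divisible by `ℓ` the curve `a^m yⁿ = ∏ f_i(x)^(e_i)` has neither points nor
sections (birational or not) over `L`, and the geometrically pro-`ℓ` fundamental group of the curve
`a^m y^ℓ = ∏ f_i(x)^(e_i)` over `L` has no section. -/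
def Nothing {k : Type} [Field k] {I : Type} [Fintype I] (a : k) (f : I → k[X]) : Prop :=
  ∀ ℓ : ℕ, ℓ.Prime → ¬ ℓ ∣ ∑ i, (f i).natDegree →
  ∀ e : I → ℕ, (∀ i, ¬ ℓ ∣ e i) → ℓ ∣ ∑ i, e i * (f i).natDegree →
  ∀ (L : Type) [Field L] [Algebra k L] [FiniteDimensional k L] (m : ℤ),
    ¬ (ℓ : ℤ) ∣ m * (Module.finrank k L : ℤ) →
    (∀ i, ℓ ∣ (f i).natDegree ∨ Module.finrank k L < (f i).natDegree) →
    (∀ n : ℕ, ℓ ∣ n →
      NoPoint n (algebraMap k L (a ^ m)) ((∏ i, f i ^ e i).map (algebraMap k L)) ∧
      NoSection n (algebraMap k L (a ^ m)) ((∏ i, f i ^ e i).map (algebraMap k L))) ∧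
    NoProEllSection ℓ (algebraMap k L (a ^ m)) ((∏ i, f i ^ e i).map (algebraMap k L))

/-- The vectors `c = (a, c_{i,j})` of elements of `R` that do not have the following property: `a ≠ 0`,
the polynomials `f_i` are irreducible of degree `d_i` over `k`, `∏ f_i` is separable, and the assertions
are true for `a` and the `f_i`. -/
def Exceptional (R : Type) [CommRing R] (k : Type) [Field k] [Algebra R k] {I : Type} [Fintype I]
    (d : I → ℕ) : Set (Index d → R) :=
  {c | ¬ (coeffA k c ≠ 0 ∧ (∀ i, (poly k c i).natDegree = d i ∧ Irreducible (poly k c i)) ∧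
    (∏ i, poly k c i).Separable ∧ Nothing (coeffA k c) (poly k c))}

/-- Density zero: for every `ε > 0` there is an ideal `J` of `R` of finite index such that `E` lies in at
most `ε #(R/J)ᴺ` residue classes modulo `J`, where `N` is the number of the coordinates of the
vectors. -/
def DensityZero {R : Type} [CommRing R] {ι : Type} [Fintype ι] (E : Set (ι → R)) : Prop :=
  ∀ ε : ℝ, 0 < ε → ∃ J : Ideal R, Finite (R ⧸ J) ∧
    (Set.ncard ((fun (t : ι → R) i => Ideal.Quotient.mk J (t i)) '' E) : ℝ) ≤
      ε * (Nat.card (R ⧸ J) : ℝ) ^ Fintype.card ι

end families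

section proof

lemma iSup_congr_prop {α : Type} [CompleteLattice α] {P Q : α → Prop} (h : ∀ L, P L ↔ Q L) :
    (⨆ L : {L // P L}, L.1) = ⨆ L : {L // Q L}, L.1 := by
  have h1 : P = Q := funext fun L => propext (h L)
  subst h1
  rfl

lemma proEll_eq (ℓ : ℕ) (k F Ω : Type) [Field k] [Field F] [Field Ω] [Algebra k F] [Algebra F Ω]
    [Algebra k Ω] : proEllField ℓ k F Ω = Pool.Agent.Y157.PS.geomPro ℓ k F Ω := by
  unfold proEllField Pool.Agent.Y157.PS.geomPro maxProEll Pool.Agent.Y157.PS.maxPro
  congr 1
  refine iSup_congr_prop fun L => ?_
  constructor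
  · rintro ⟨⟨h1, h2, h3⟩, h4⟩
    refine ⟨⟨h1, h2, h3⟩, fun W hW z hz hz0 => ?_⟩
    obtain ⟨t, ht, h5, h6⟩ := h4 W hW z hz hz0
    exact ⟨t, ht, div_ne_zero hz0 ((_root_.map_ne_zero _).2 ht), h5, h6⟩
  · rintro ⟨⟨h1, h2, h3⟩, h4⟩
    refine ⟨⟨h1, h2, h3⟩, fun W hW z hz hz0 => ?_⟩
    obtain ⟨t, ht, -, h5, h6⟩ := h4 W hW z hz hz0
    exact ⟨t, ht, h5, h6⟩

lemma of_fine {k : Type} [Field k] (l : ℕ) (a : k) (f : k[X])
    (h : Pool.Agent.Y157.PS.FineP l a f) (n : ℕ) (hn : l ∣ n) (hd : l ∣ f.natDegree) :
    NoPoint n a f ∧ NoSection n a f := by
  obtain ⟨-, h1, h2, h3⟩ := h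
  obtain ⟨n', rfl⟩ := hn
  refine ⟨⟨?_, ?_⟩, ?_⟩
  · rintro ⟨x, y, hxy⟩
    apply h2 x (y ^ n')
    rw [← hxy, ← pow_mul, mul_comm n' l]
  · rintro ⟨r, hr⟩
    obtain ⟨e, he⟩ := Nat.dvd_gcd (Dvd.intro n' rfl : l ∣ l * n') hd
    apply h3 (r ^ e)
    rw [← hr, ← pow_mul, mul_comm e l, he]
  · intro F Ω _ _ _ _ _ _ _ x y U hxy hU
    have hcl : IsAlgClosed Ω := IsAlgClosure.isAlgClosed F
    have halg : Algebra.IsAlgebraic F Ω := IsAlgClosure.isAlgebraic
    have h4 := h1 F Ω U hU x (y ^ n') (by rw [← hxy, ← pow_mul, mul_comm n' l])
    exact ⟨fun s => h4.false ⟨s.toHom, s.cont, s.compat⟩⟩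

end proof

/-- Let `R` be a domain of characteristic zero that is finitely generated as a ring, with fraction
field `k`; so `k` is any field finitely generated over `ℚ`.  Let `d_i ≥ 2` for `i` in a finite set with at
least two elements.  For all vectors `(a, c_{i,j})`, `0 ≤ j ≤ d_i`, of elements of `R` outside a set of
density zero, `a ≠ 0`, the polynomials `f_i = c_{i,0} + … + c_{i,d_i} x^(d_i)` are irreducible of degree `d_i`
over `k` and `∏ f_i` is separable, and for ALL prime numbers `ℓ` that do not divide `∑ d_i`, all exponents
`e_i` prime to `ℓ` with `ℓ ∣ ∑ e_i d_i`, all finite extensions `L` of `k` and integers `m` such that `ℓ` does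
not divide `m [L : k]` and for every `i` either `ℓ ∣ d_i` or `[L : k] < d_i`: the geometrically pro-`ℓ`
fundamental group of the curve `a^m y^ℓ = ∏ f_i(x)^(e_i)` over `L` has no section, and for all `n` divisible
by `ℓ` the curve `a^m yⁿ = ∏ f_i(x)^(e_i)` has no point over `L`, and the function field of this curve, and
of every curve (or variety) over `L` that dominates it, has no birational section; more generally the
fundamental groups of their open subcurves have no sections over `G_L`. -/
theorem result (R : Type) [CommRing R] [IsDomain R] [CharZero R] [Algebra.FiniteType ℤ R]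
    (k : Type) [Field k] [Algebra R k] [IsFractionRing R k] (I : Type) [Fintype I]
    (hI : 2 ≤ Fintype.card I) (d : I → ℕ) (hd : ∀ i, 2 ≤ d i) :
    DensityZero (Exceptional R k d) := by
  have hcz : CharZero k := charZero_of_injective_algebraMap (IsFractionRing.injective R k)
  have hd3 : 3 ≤ ∑ i, d i := by
    have h1 : ∑ _i : I, 2 ≤ ∑ i, d i := Finset.sum_le_sum fun i _ => hd i
    rw [Finset.sum_const, Finset.card_univ, smul_eq_mul] at h1
    omega
  intro ε hε
  obtain ⟨Q, -, hQ, J, hJ, hle⟩ := Pool.Agent.X281.SE.typ_density (R := R) (k := k) d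
    (fun i => (hd i).trans' one_le_two) 2 1 one_ne_zero ε hε
  refine ⟨J, hJ, le_trans ?_ hle⟩
  have hsub : (Exceptional R k d : Set (Index d → R)) ⊆
      {c | ¬ ∀ j, Pool.Agent.X281.SEI.GoodV
        (fun κ _ c => Pool.Agent.X281.SE.TypC d κ c) (Q j).1 (Q j).2 k c} := by
    intro c hc hgood
    obtain ⟨h1, h2⟩ := hgood 0
    obtain ⟨-, h2'⟩ := hgood 1
    apply hc
    obtain ⟨h3, h4, -⟩ := Pool.Agent.X281.SE.typ_ext.{0, 0, 0} d _ _ _ _ h2
    have hdeg : ∀ i, (poly k c i).natDegree = d i := fun i => (h3 i).2
    refine ⟨h1, fun i => ⟨(h3 i).2, (h3 i).1⟩, h4, ?_⟩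
    intro ℓ hℓ hℓd e he hsume L _ _ _ m hm hL
    have hsum' : ∑ i, e i * (poly k c i).natDegree = ∑ i, e i * d i :=
      Finset.sum_congr rfl fun i _ => by rw [hdeg i]
    rw [hsum'] at hsume
    obtain ⟨q', hq'⟩ := Pool.Agent.X281.OB.goodI_prime _ h2 h2' (hQ 0 1 (by decide)) hℓ
    have key := Pool.Agent.X281.SE.typ_proAll d hd3 _ _ _ _ hq' ℓ hℓ dvd_rfl e he hsume
      (L := L) m hm (fun i => by have := hL i; rwa [hdeg] at this)
    have hne : ∀ i, poly k c i ≠ 0 := fun i => (h3 i).1.ne_zero
    have hprod : (∏ i, poly k c i ^ e i).natDegree = ∑ i, e i * d i := by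
      rw [natDegree_prod _ _ fun i _ => pow_ne_zero _ (hne i), ← hsum']
      exact Finset.sum_congr rfl fun i _ => natDegree_pow _ _
    refine ⟨fun n hln => of_fine ℓ _ _ key n hln ?_, ?_⟩
    · rw [natDegree_map]
      exact hprod ▸ hsume
    · intro F Ω _ _ _ _ _ _ _ x y hx hxy hF N hN
      have hcl : IsAlgClosed Ω := IsAlgClosure.isAlgClosed F
      have halg : Algebra.IsAlgebraic F Ω := IsAlgClosure.isAlgebraic
      rw [proEll_eq] at hN
      exact ⟨fun s => key.1 F Ω x y hx hxy hF N hN s.toHom s.cont s.compat⟩
  exact_mod_cast Set.ncard_le_ncard (Set.image_mono hsub) (Set.toFinite _)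

end Pool.Agent.Results.MP_2f3286_ag.ProEllSectionsAllPrimes
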