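import Pool.Agent.Y158.FQ.Trip4
import Pool.Agent.Results.MP_2f3286_ag.FermatQuotients

/-!
# Sections for the projective line minus three points over `ℤ[1/ℓ]`

Let `ℓ` be an odd regular prime number and `U = ℙ¹ ∖ {0, 1, ∞}`, with the coordinate `x`. We prove:

*Let `s` be a section of the geometrically pro-`ℓ` fundamental group `π₁(U)^(ℓ) → G_ℚ` which extends to
a section over `ℤ[1/ℓ]`, or only: the Kummer classes of the two units `x` and `1 - x` along `s`, in
`H¹(ℚ, ℤ_ℓ(1))`, belong to the subgroup `ℤ[1/ℓ]ˣ ⊗ ℤ_ℓ`. If `s` is given over `ℚ_ℓ`, or only over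
`ℚ_ℓ(ζ_ℓ)`, by a point of `U` or a cusp, then this local point is a cusp.*

This is the section conjecture for the scheme `ℙ¹ ∖ {0, 1, ∞}` over `ℤ[1/ℓ]`, relative to `ℓ`, for
sections with a local point at `ℓ`: the scheme has no points over `ℤ[1/ℓ]` (this is the equation
`± ℓ ^ i ± ℓ ^ j = 1`, and `ℓ` is odd), and so the only sections should be the cuspidal ones. Nothing is
assumed at the other primes besides the integrality, and even there nothing but the classes of `x` and
`1 - x` is used, so that the theorem is about the quotient `π₁(U)^(ℓ)` but the integrality is a condition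
on the abelianization only.

The starting result `FermatQuotients` has a similar conclusion for the sections which fix an `ℓ`-th root
of `x ^ a (1 - x) ^ b`, where `ℓ` divides none of `a`, `b`, `a + b`; there is no condition of this kind
here, and no condition of integrality there. The theorem below is the last theorem of the series of
files `Pool/Agent/Y158/FQ/Trip*.lean` of the starting library, which was not handed in.

The theorem is stated for the function fields `F` of transcendence degree one over `ℚ` with a
nonconstant element `x` (so for all curves with a nonconstant map to the line, for example `F = ℚ(x)`),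
and for sections `s` of quotients `Gal(N/F)` of the absolute Galois group of `F` such that `N` contains the
maximal pro-`ℓ` extension `TripodEll` of `ℚ̄(x)` which is unramified outside `0`, `1`, `∞`. The local point
is a place `p` of `N` with values in an algebraic closure of the completion `K_v = ℚ_ℓ(ζ_ℓ)` of
`K = ℚ(ζ_ℓ)` at the place `v` above `ℓ`; a section given by `p` over `ℚ_ℓ` is given by `p` over `K_v`,
and so the theorem applies in particular to sections that are given by a point over `ℚ_ℓ`.

Proof. Assume that the value of `x` at `p` is not `0`, `1`, `∞`. The Kummer classes of `x` and `1 - x` are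
`± ℓ ^ i` and `± ℓ ^ j` modulo `ℓ ^ n`-th powers with `i`, `j` depending on `n`; together with the local
point at `ℓ`, where `x (p) = ± ℓ ^ α` and `1 - x (p) = ± ℓ ^ β` up to roots of unity with `ℓ`-adic
exponents, this shows that `x` and `1 - x` are `ℓ`-th powers along `s`. So `s` lifts to the Fermat
curve `u ^ ℓ + w ^ ℓ = 1` over `K`, where Kummer's proof of Fermat's last theorem for regular primes and
Kummer's lemma can be carried out in the fixed field of the section, and this shows that the local
point is a cusp.
-/

set_option autoImplicit false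

open IsDedekindDomain NumberField Pool.Agent.W620.SC Pool.Agent.TH954

namespace Pool.Agent.Results.MP_2f3286_ag.TripodSections

open Pool.Agent.Results.MP_2f3286_ag.FermatQuotients (TripodEll)

/-- The Kummer class of the element `u` of `F` along the section `s` belongs to the subgroup
`ℤ[1/ℓ]ˣ ⊗ ℤ_ℓ` of `H¹(ℚ, ℤ_ℓ(1))`: for every `n` the element `u` is the product of a unit `± ℓ ^ i` of
`ℤ[1/ℓ]` and of an `ℓ ^ n`-th power of an element which is fixed by `s`. -/
def IsIntegralAlong (ℓ : ℕ) {F N B : Type} [Field F] [Field N] [Field B] [Algebra F N]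
    [Algebra ℚ N] [Algebra ℚ B] (s : GalSection ℚ F N B) (u : F) : Prop :=
  ∀ n : ℕ, ∃ (ε : ℤˣ) (i : ℤ) (z : N), (∀ g, s.s g z = z) ∧
    algebraMap F N u = algebraMap ℚ N (((ε : ℤ) : ℚ) * (ℓ : ℚ) ^ i) * z ^ (ℓ ^ n)

/-- **Sections for the projective line minus three points over `ℤ[1/ℓ]`.**  Let `ℓ` be an odd prime
that does not divide the class number of `K = ℚ(ζ_ℓ)`, let `F` be a function field of transcendence
degree one over `ℚ` with algebraic closure `Ω`, and let `x` be a nonconstant element of `F`.  Let `N` be
an extension of `F` in `Ω` which contains the maximal pro-`ℓ` extension of `ℚ̄(x)` that is unramified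
outside `0`, `1`, `∞`, let `s` be a section of `Gal(N/F) → G_ℚ` such that `x` and `1 - x` are integral
along `s`, and let `p` be a place of `N` with values in the algebraic closure of the completion `K_v`
of `K` at the place `v` above `ℓ` that gives `s` over `K_v`.  Then `x` has the value `0`, `1` or `∞` at
`p`. -/
theorem result (ℓ : ℕ) [Fact ℓ.Prime] (hℓ : ℓ ≠ 2) (K : Type) [Field K] [NumberField K]
    [IsCyclotomicExtension {ℓ} ℚ K] (hreg : ¬ ℓ ∣ classNumber K)
    (F Ω B : Type) [Field F] [Field Ω] [Field B] [Algebra ℚ F] [Algebra F Ω] [Algebra ℚ Ω]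
    [Algebra ℚ B] [IsScalarTower ℚ F Ω] [IsAlgClosed Ω] [Algebra.IsAlgebraic F Ω]
    [IsAlgClosure ℚ B] (x : F) (hx : Transcendental ℚ x)
    (hF : Algebra.IsAlgebraic (IntermediateField.adjoin ℚ {x}) F)
    (N : IntermediateField F Ω) (hN : TripodEll ℓ (algebraMap F Ω x) ⊆ N)
    (s : GalSection ℚ F N B) (h : IsIntegralAlong ℓ s x) (h' : IsIntegralAlong ℓ s (1 - x))
    (v : HeightOneSpectrum (𝓞 K)) (hv : (ℓ : 𝓞 K) ∈ v.asIdeal)
    (p : Plc ℚ N (AlgebraicClosure (v.adicCompletion K)))
    (hp : s.GivenBy (v.adicCompletion K) p) :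
    p.val (algebraMap F N x) 0 ∨ p.val (algebraMap F N x) 1 ∨
      p.val (algebraMap F N x)⁻¹ 0 := by
  have hℓp : ℓ.Prime := Fact.out
  have hℓ2 : 2 < ℓ := lt_of_le_of_ne hℓp.two_le (Ne.symm hℓ)
  have hodd : Odd ℓ := hℓp.odd_of_ne_two hℓ
  have hcop : (classNumber K).Coprime ℓ := ((Nat.Prime.coprime_iff_not_dvd hℓp).2 hreg).symm
  have hKL := Pool.Agent.Y158.KL.kummer_lemma (IsCyclotomicExtension.zeta_spec ℓ ℚ K) hℓ2 hcop
  obtain ⟨ζ, hζ⟩ : ∃ ζ : K, IsPrimitiveRoot ζ ℓ := ⟨_, IsCyclotomicExtension.zeta_spec ℓ ℚ K⟩
  have hvl : v = Pool.Agent.Y158.KL.lam hζ := by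
    by_contra hne
    exact Pool.Agent.Y158.GR.ell_notMem hζ hne hv
  subst hvl
  exact Pool.Agent.Y158.FQ.tripFin hζ hodd hcop hKL x hx hF N (fun z hz => by
    obtain ⟨L, h1, h2, h3⟩ := hz
    exact hN ⟨L, h1, h2.fin, h2.gal, h2.card, h3⟩) s p hp h h'

end Pool.Agent.Results.MP_2f3286_ag.TripodSections
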